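import Pool.Agent.Helper60_AK.StmtF
import Pool.Agent.Helper23_Squeeze.Holo

/-!
# AK module E2a: t-derivatives deep inside
-/

set_option autoImplicit false

namespace Pool.Agent.AK.H47

open Complex Metric Filter Topology Pool.Agent.AK

/-- real and complex iterated derivatives -/
theorem iter_ofReal {A : Set ℂ} (hA : IsOpen A) {G : ℂ → ℂ} (hG : DifferentiableOn ℂ G A)
    (n : ℕ) : ∀ t : ℝ, (t : ℂ) ∈ A →
      iteratedDeriv n (fun s : ℝ => G (s : ℂ)) t = iteratedDeriv n G (t : ℂ) := by
  induction n with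
  | zero => intro t _; rw [iteratedDeriv_zero, iteratedDeriv_zero]
  | succ n ih =>
    intro t ht
    rw [iteratedDeriv_succ, iteratedDeriv_succ]
    have h1 : (iteratedDeriv n (fun s : ℝ => G (s : ℂ))) =ᶠ[𝓝 t]
        fun s : ℝ => iteratedDeriv n G (s : ℂ) := by
      have h2 : ∀ᶠ s : ℝ in 𝓝 t, (s : ℂ) ∈ A :=
        Complex.continuous_ofReal.continuousAt.eventually (hA.mem_nhds ht)
      filter_upwards [h2] with s hs using ih s hs
    rw [h1.deriv_eq]
    have h3 : DifferentiableAt ℂ (iteratedDeriv n G) (t : ℂ) := by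
      have h4 : AnalyticAt ℂ G (t : ℂ) := hG.analyticAt (hA.mem_nhds ht)
      rw [iteratedDeriv_eq_iterate]
      exact (h4.iterated_deriv n).differentiableAt
    exact h3.hasDerivAt.comp_ofReal.deriv

theorem e2a (h1 : F1aStmt) : E2aStmt := by
  intro Ω ρ f k0 B V t0 c2 hS k n
  obtain ⟨hdom, hbf, -, hgeo⟩ := hS
  have hΩ : IsOpen Ω := by
    rw [hdom.eq]; exact isOpen_lt hdom.smooth.continuous continuous_const
  obtain ⟨-, hnu, htau, -, -⟩ := h1 Ω ρ f hΩ hdom.smooth hbf.hol
  -- a bound of `nu` and `tau` on the closure of `V`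
  obtain ⟨S1, hS1⟩ := hgeo.cpt.exists_bound_of_continuousOn (f := nu ρ)
    (hnu.continuousOn.mono fun p hp => hgeo.g2ne p hp)
  obtain ⟨S2, hS2⟩ := hgeo.cpt.exists_bound_of_continuousOn (f := tau ρ)
    htau.continuous.continuousOn
  set S : ℝ := |S1| + |S2| + 1 with hSdef
  have hS0 : 0 < S := by positivity
  set q : ℝ := c2 / S with hq
  have hq0 : 0 < q := div_pos hgeo.c2pos hS0
  refine ⟨n.factorial * (k.factorial * B) / q ^ (k + n), ?_⟩
  intro p hp hρ t ht0 ht1
  have hpV : p ∈ closure V := subset_closure hp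
  have hρ' : 0 < |ρ p| := abs_pos.2 hρ.ne
  set r : ℝ := q * |ρ p| with hr
  have hr0 : 0 < r := mul_pos hq0 hρ'
  -- the points stay in `Ω`
  have hin : ∀ a b : ℂ, ‖a - t‖ ≤ r → ‖b‖ ≤ r → p + a • nu ρ p + b • tau ρ p ∈ Ω := by
    intro a b ha hb
    have hw : ‖(a - t) • nu ρ p + b • tau ρ p‖ ≤ c2 * |ρ p| := by
      refine (norm_add_le _ _).trans ?_
      rw [norm_smul, norm_smul]
      have e1 : ‖a - t‖ * ‖nu ρ p‖ ≤ r * |S1| :=
        mul_le_mul ha ((hS1 p hpV).trans (le_abs_self _)) (norm_nonneg _) hr0.le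
      have e2 : ‖b‖ * ‖tau ρ p‖ ≤ r * |S2| :=
        mul_le_mul hb ((hS2 p hpV).trans (le_abs_self _)) (norm_nonneg _) hr0.le
      have e3 : r * S = c2 * |ρ p| := by
        rw [hr, hq]; field_simp
      have e4 : r * |S1| + r * |S2| ≤ r * S := by
        rw [hSdef]; nlinarith
      linarith
    have h3 := hgeo.deep p hpV hρ t ht0 ht1 _ hw
    rw [hdom.eq]
    show ρ _ < 0
    have e : p + (t : ℂ) • nu ρ p + ((a - t) • nu ρ p + b • tau ρ p) =
        p + a • nu ρ p + b • tau ρ p := by
      rw [sub_smul]; abel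
    rwa [e] at h3
  -- the holomorphic function of `a`
  set P : C2 → ℂ := fun x => iteratedDeriv k (fun ζ : ℂ => f (x + ζ • tau ρ p)) 0 with hP
  have hPd : DifferentiableOn ℂ P Ω :=
    Pool.Agent.Squeeze.differentiableOn_iteratedDeriv_dir hΩ hbf.hol (tau ρ p) k
  set G : ℂ → ℂ := fun a => P (p + a • nu ρ p) with hG
  set A : Set ℂ := (fun a : ℂ => p + a • nu ρ p) ⁻¹' Ω with hAdef
  have hcont : Continuous (fun a : ℂ => p + a • nu ρ p) := by fun_prop
  have hA : IsOpen A := hΩ.preimage hcont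
  have hGd : DifferentiableOn ℂ G A := by
    refine hPd.comp (t := Ω) (fun a _ => ?_) (fun a ha => ha)
    have : Differentiable ℂ (fun a : ℂ => p + a • nu ρ p) := by fun_prop
    exact this.differentiableAt.differentiableWithinAt
  have htA : (t : ℂ) ∈ A := by
    have := hin t 0 (by rw [sub_self, norm_zero]; exact hr0.le) (by rw [norm_zero]; exact hr0.le)
    rwa [zero_smul, add_zero] at this
  have hFG : (fun s : ℝ => Fk ρ f k p s) = fun s : ℝ => G (s : ℂ) := rfl
  -- bound of `G`
  have hGb : ∀ a : ℂ, ‖a - t‖ ≤ r → ‖G a‖ ≤ k.factorial * B / r ^ k := by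
    intro a ha
    refine Complex.norm_iteratedDeriv_le_of_forall_mem_sphere_norm_le
      (f := fun ζ : ℂ => f (p + a • nu ρ p + ζ • tau ρ p)) k hr0 ?_ ?_
    · refine DifferentiableOn.diffContOnCl fun b hb => ?_
      have hb' : ‖b‖ ≤ r := by
        have := closure_ball_subset_closedBall hb
        rwa [mem_closedBall_zero_iff] at this
      have h3 := hin a b ha hb'
      have h4 : DifferentiableAt ℂ f (p + a • nu ρ p + b • tau ρ p) :=
        (hbf.hol _ h3).differentiableAt (hΩ.mem_nhds h3)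
      have h5 : DifferentiableAt ℂ (fun ζ : ℂ => p + a • nu ρ p + ζ • tau ρ p) b := by fun_prop
      exact (h4.comp b h5).differentiableWithinAt
    · intro b hb
      rw [mem_sphere_zero_iff_norm] at hb
      have h3 := hbf.bdd 0 (Nat.zero_le _) _ (hin a b ha hb.le)
      rwa [norm_iteratedFDeriv_zero] at h3
  constructor
  · rw [hFG]
    have h3 : ContDiffAt ℂ n G (t : ℂ) :=
      ((hGd.analyticAt (hA.mem_nhds htA)).contDiffAt)
    have h4 : ContDiffAt ℝ n G (t : ℂ) := h3.restrict_scalars ℝ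
    exact h4.comp t Complex.ofRealCLM.contDiff.contDiffAt
  · rw [hFG, iter_ofReal hA hGd n t htA]
    have h3 := Complex.norm_iteratedDeriv_le_of_forall_mem_sphere_norm_le (f := G) (c := (t : ℂ))
      (C := k.factorial * B / r ^ k) n hr0 (DifferentiableOn.diffContOnCl fun a ha => ?_)
      (fun a ha => hGb a (by rw [mem_sphere_iff_norm] at ha; exact ha.le))
    · refine h3.trans (le_of_eq ?_)
      rw [hr, mul_pow, mul_pow]
      have e1 : q ^ k ≠ 0 := by positivity
      have e2 : q ^ n ≠ 0 := by positivity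
      have e3 : |ρ p| ^ k ≠ 0 := by positivity
      have e4 : |ρ p| ^ n ≠ 0 := by positivity
      rw [pow_add, pow_add]
      field_simp
    · have ha' : ‖a - t‖ ≤ r := by
        have := closure_ball_subset_closedBall ha
        rwa [mem_closedBall, dist_eq_norm] at this
      have h4 := hin a 0 ha' (by rw [norm_zero]; exact hr0.le)
      rw [zero_smul, add_zero] at h4
      exact ((hGd a h4).differentiableAt (hA.mem_nhds h4)).differentiableWithinAt

end Pool.Agent.AK.H47
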