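import Pool.Agent.Helper60_AK.StmtF

/-!
# AK module L3: derivatives of g (L - c0 (q))
-/

set_option autoImplicit false

namespace Pool.Agent.AK.H47

open Complex Metric Filter Topology Pool.Agent.AK

theorem fderiv_eq_mul {g : ℂ → ℂ} (hg : Differentiable ℂ g) :
    fderiv ℝ g = (ContinuousLinearMap.mul ℝ ℂ) ∘ deriv g := by
  funext z
  have h1 : HasFDerivAt g (ContinuousLinearMap.restrictScalars ℝ (fderiv ℂ g z)) z :=
    (hg z).hasFDerivAt.restrictScalars ℝ
  rw [h1.fderiv]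
  refine ContinuousLinearMap.ext fun v => ?_
  show fderiv ℂ g z v = deriv g z * v
  rw [← fderiv_apply_one_eq_deriv]
  have : v = v • (1 : ℂ) := by simp
  conv_lhs => rw [this, map_smul]
  rw [smul_eq_mul, mul_comm]

theorem contDiff_of_dec {g : ℂ → ℂ} (hg : Dec g) (m : WithTop ℕ∞) : ContDiff ℝ m g :=
  (hg.1.contDiff (n := m)).restrict_scalars ℝ

/-- all real derivatives of a rapidly decreasing entire function decrease rapidly -/
theorem dec_iter (h3 : F3aStmt) (i : ℕ) : ∀ g : ℂ → ℂ, Dec g → ∀ (N : ℕ) (R : ℝ), ∃ C : ℝ,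
    0 ≤ C ∧ ∀ z : ℂ, |z.im| ≤ R →
      ‖iteratedFDeriv ℝ i g z‖ ≤ C * Real.exp (-((N : ℝ) * |z.re|)) := by
  induction i with
  | zero =>
    intro g hg N R
    obtain ⟨C, hC⟩ := hg.2 N R
    refine ⟨max C 0, le_max_right _ _, fun z hz => ?_⟩
    rw [norm_iteratedFDeriv_zero]
    exact (hC z hz).trans (mul_le_mul_of_nonneg_right (le_max_left _ _) (Real.exp_nonneg _))
  | succ i ih =>
    intro g hg N R
    have hd : Dec (deriv g) := h3.1 g hg
    obtain ⟨C, hC0, hC⟩ := ih (deriv g) hd N R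
    refine ⟨‖ContinuousLinearMap.mul ℝ ℂ‖ * C, by positivity, fun z hz => ?_⟩
    rw [← norm_iteratedFDeriv_fderiv, fderiv_eq_mul hg.1]
    refine ((ContinuousLinearMap.mul ℝ ℂ).norm_iteratedFDeriv_comp_left
      (contDiff_of_dec hd (i : ℕ)).contDiffAt le_rfl).trans ?_
    rw [mul_assoc]
    exact mul_le_mul_of_nonneg_left (hC z hz) (norm_nonneg _)

theorem l3 (h3 : F3aStmt) : L3Stmt := by
  rintro V s c0 hcpt ⟨U, hU, hVU, hc0⟩ g hg N
  have hbd : ∀ i : ℕ, ∃ D : ℝ, 0 ≤ D ∧ (i ≤ s → ∀ x ∈ closure V,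
      ‖iteratedFDerivWithin ℝ i c0 U x‖ ≤ D) := by
    intro i
    by_cases hi : i ≤ s
    · obtain ⟨D, hD⟩ := hcpt.exists_bound_of_continuousOn
        (f := iteratedFDerivWithin ℝ i c0 U)
        ((hc0.continuousOn_iteratedFDerivWithin (by exact_mod_cast hi) hU.uniqueDiffOn).mono hVU)
      exact ⟨max D 0, le_max_right _ _, fun _ x hx => (hD x hx).trans (le_max_left _ _)⟩
    · exact ⟨0, le_rfl, fun h => absurd h hi⟩
  choose D hD0 hD using hbd
  set E : ℝ := 1 + ∑ i ∈ Finset.range (s + 1), D i with hE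
  have hE1 : 1 ≤ E := by
    have := Finset.sum_nonneg fun i (_ : i ∈ Finset.range (s + 1)) => hD0 i
    linarith
  have hDE : ∀ i, i ≤ s → D i ≤ E := by
    intro i hi
    have := Finset.single_le_sum (f := D) (fun i _ => hD0 i)
      (Finset.mem_range.2 (Nat.lt_succ_of_le hi))
    linarith
  have hg' : ∀ i : ℕ, ∃ C : ℝ, 0 ≤ C ∧ ∀ z : ℂ, |z.im| ≤ E →
      ‖iteratedFDeriv ℝ i g z‖ ≤ C * Real.exp (-((N : ℝ) * |z.re|)) := fun i =>
    dec_iter h3 i g hg N E
  choose C hC0 hC using hg'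
  set F : ℝ := ∑ i ∈ Finset.range (s + 1), C i with hF
  have hF0 : 0 ≤ F := Finset.sum_nonneg fun i _ => hC0 i
  have hCF : ∀ i, i ≤ s → C i ≤ F := fun i hi =>
    Finset.single_le_sum (f := C) (fun i _ => hC0 i) (Finset.mem_range.2 (Nat.lt_succ_of_le hi))
  refine ⟨s.factorial * (F * Real.exp (N * E)) * E ^ s, fun j hj L q hq => ?_⟩
  have hqV : q ∈ closure V := subset_closure hq
  have hqU : q ∈ U := hVU hqV
  have hcq : ‖c0 q‖ ≤ E := by
    have h1 := hD 0 (Nat.zero_le s) q hqV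
    rw [norm_iteratedFDerivWithin_zero] at h1
    exact h1.trans (hDE 0 (Nat.zero_le s))
  have hf : ContDiffOn ℝ (s : WithTop ℕ∞) (fun x => (L : ℂ) - c0 x) U :=
    contDiffOn_const.sub hc0
  have hexp : ∀ i, i ≤ s → ‖iteratedFDeriv ℝ i g ((L : ℂ) - c0 q)‖ ≤
      F * Real.exp (N * E) * Real.exp (-((N : ℝ) * |L|)) := by
    intro i hi
    have h1 : |((L : ℂ) - c0 q).im| ≤ E := by
      rw [sub_im, ofReal_im, zero_sub, abs_neg]
      exact (abs_im_le_norm _).trans hcq
    have h2 : |L| ≤ |((L : ℂ) - c0 q).re| + E := by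
      rw [sub_re, ofReal_re]
      have h3 : |L| ≤ |L - (c0 q).re| + |(c0 q).re| := by
        have := abs_add_le (L - (c0 q).re) (c0 q).re
        rwa [sub_add_cancel] at this
      have h4 := (abs_re_le_norm (c0 q)).trans hcq
      linarith
    refine (hC i _ h1).trans ?_
    rw [mul_assoc, ← Real.exp_add]
    refine mul_le_mul (hCF i hi) (Real.exp_le_exp.2 ?_) (Real.exp_nonneg _) hF0
    have hN : (0 : ℝ) ≤ N := Nat.cast_nonneg N
    nlinarith
  have key := norm_iteratedFDerivWithin_comp_le (𝕜 := ℝ) (g := g) (f := fun x => (L : ℂ) - c0 x)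
    (n := j) (s := U) (t := Set.univ) (x := q) (N := (s : WithTop ℕ∞))
    (C := F * Real.exp (N * E) * Real.exp (-((N : ℝ) * |L|))) (D := E)
    (contDiff_of_dec hg _).contDiffOn hf (by exact_mod_cast hj) uniqueDiffOn_univ
    hU.uniqueDiffOn (Set.mapsTo_univ _ _) hqU
    (fun i hi => by
      rw [iteratedFDerivWithin_univ]
      exact hexp i (hi.trans hj))
    (fun i hi1 hij => by
      have hc : ContDiffWithinAt ℝ (i : WithTop ℕ∞) c0 U q :=
        (hc0 q hqU).of_le (by exact_mod_cast hij.trans hj)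
      have e : iteratedFDerivWithin ℝ i (fun x => (L : ℂ) - c0 x) U q =
          - iteratedFDerivWithin ℝ i c0 U q := by
        have h5 := iteratedFDerivWithin_sub_apply (𝕜 := ℝ) (f := fun _ : C2 => (L : ℂ)) (g := c0)
          (i := i) (s := U) (x := q) contDiffWithinAt_const hc hU.uniqueDiffOn hqU
        rw [iteratedFDerivWithin_const_of_ne (by omega)] at h5
        have h6 : ((fun _ : C2 => (L : ℂ)) - c0) = fun x => (L : ℂ) - c0 x := rfl
        rw [h6] at h5
        rw [h5]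
        simp
      rw [e, norm_neg]
      refine (hD i (hij.trans hj) q hqV).trans ((hDE i (hij.trans hj)).trans ?_)
      exact le_self_pow₀ hE1 (by omega))
  have e1 : iteratedFDeriv ℝ j (fun x => g ((L : ℂ) - c0 x)) q =
      iteratedFDerivWithin ℝ j (g ∘ fun x => (L : ℂ) - c0 x) U q :=
    (iteratedFDerivWithin_of_isOpen j hU hqU).symm
  rw [e1]
  refine key.trans ?_
  have hfac : (j.factorial : ℝ) ≤ s.factorial := by exact_mod_cast Nat.factorial_le hj
  have hpow : E ^ j ≤ E ^ s := pow_le_pow_right₀ hE1 hj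
  have hX : 0 ≤ F * Real.exp (N * E) := by positivity
  have hY : 0 ≤ Real.exp (-((N : ℝ) * |L|)) := Real.exp_nonneg _
  have hE0 : 0 ≤ E := by linarith
  calc (j.factorial : ℝ) * (F * Real.exp (N * E) * Real.exp (-((N : ℝ) * |L|))) * E ^ j
      ≤ s.factorial * (F * Real.exp (N * E) * Real.exp (-((N : ℝ) * |L|))) * E ^ s := by
        refine mul_le_mul (mul_le_mul_of_nonneg_right hfac (by positivity)) hpow (by positivity)
          (by positivity)
    _ = _ := by ring

end Pool.Agent.AK.H47
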